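import Pool.Agent.Helper1.C0.Code

/-!
Continuous convergence of families of locally injective continuous maps.
-/

open Set Filter Topology
open scoped ContDiff

namespace Pool.Agent.Helper1.C0

variable {κ : Type} {E : Type} [NormedAddCommGroup E] [NormedSpace ℝ E]
variable {F : Type} [NormedAddCommGroup F] [NormedSpace ℝ F]
variable {G : Type} [NormedAddCommGroup G] [NormedSpace ℝ G]

theorem ev_ev {X : Type} [TopologicalSpace X] {l : Filter κ} {x : X} {P : κ × X → Prop}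
    (h : ∀ᶠ p in l ×ˢ 𝓝 x, P p) : ∀ᶠ p in l ×ˢ 𝓝 x, ∀ᶠ x' in 𝓝 p.2, P (p.1, x') := by
  rw [Filter.eventually_prod_iff] at h ⊢
  obtain ⟨pa, ha, pb, hb, h⟩ := h
  refine ⟨pa, ha, fun x' => ∀ᶠ x'' in 𝓝 x', pb x'', hb.eventually_nhds, ?_⟩
  intro k hk x' hx'
  filter_upwards [hx'] with x'' hx''
  exact h hk hx''

theorem ev_self {X : Type} [TopologicalSpace X] {l : Filter κ} {x : X} {P : κ × X → Prop}
    (h : ∀ᶠ p in l ×ˢ 𝓝 x, P p) : ∀ᶠ k in l, P (k, x) := by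
  rw [Filter.eventually_prod_iff] at h
  obtain ⟨pa, ha, pb, hb, h⟩ := h
  filter_upwards [ha] with k hk
  exact h hk hb.self_of_nhds

theorem ev_snd {X : Type} [TopologicalSpace X] {l : Filter κ} {x : X} {P : X → Prop}
    (h : ∀ᶠ y in 𝓝 x, P y) : ∀ᶠ p in l ×ˢ 𝓝 x, P p.2 :=
  (tendsto_snd (f := l) (g := 𝓝 x)).eventually h

theorem ev_fst {X : Type} [TopologicalSpace X] {l : Filter κ} {x : X} {P : κ → Prop}
    (h : ∀ᶠ k in l, P k) : ∀ᶠ p in l ×ˢ 𝓝 x, P p.1 :=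
  (tendsto_fst (f := l) (g := 𝓝 x)).eventually h

/-- `u` is continuous in a neighbourhood of `x`. -/
def SN (u : E → F) (x : E) : Prop := ∀ᶠ x' in 𝓝 x, ContinuousAt u x'

/-- `u` is injective in a neighbourhood of `x`. -/
def LI (u : E → F) (x : E) : Prop := ∀ᶠ p : E × E in 𝓝 x ×ˢ 𝓝 x, u p.1 = u p.2 → p.1 = p.2

/-- The family `u` is injective in a neighbourhood of `x`, uniformly. -/
def ULI (l : Filter κ) (u : κ → E → F) (x : E) : Prop :=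
  ∀ᶠ p : κ × (E × E) in l ×ˢ (𝓝 x ×ˢ 𝓝 x), u p.1 p.2.1 = u p.1 p.2.2 → p.2.1 = p.2.2

theorem SN.self {u : E → F} {x : E} (h : SN u x) : ContinuousAt u x := h.self_of_nhds

theorem SN.ev {u : E → F} {x : E} (h : SN u x) : ∀ᶠ x' in 𝓝 x, SN u x' :=
  Filter.Eventually.eventually_nhds h

theorem SN.congr {u v : E → F} {x : E} (h : SN u x) (e : ∀ᶠ x' in 𝓝 x, u x' = v x') : SN v x := by
  have e' : ∀ᶠ x' in 𝓝 x, ∀ᶠ x'' in 𝓝 x', u x'' = v x'' := e.eventually_nhds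
  filter_upwards [h, e'] with x' h1 h2
  have h3 : u =ᶠ[𝓝 x'] v := h2
  exact h1.congr h3

theorem SN.comp {u : E → F} {v : F → G} {x : E} (hv : SN v (u x)) (hu : SN u x) :
    SN (v ∘ u) x := by
  have h1 := hu.self.tendsto.eventually hv
  filter_upwards [hu, h1] with x' h2 h3
  exact ContinuousAt.comp h3 h2

theorem LI.congr {u v : E → F} {x : E} (h : LI u x) (e : ∀ᶠ x' in 𝓝 x, u x' = v x') : LI v x := by
  have e1 : ∀ᶠ p : E × E in 𝓝 x ×ˢ 𝓝 x, u p.1 = v p.1 := tendsto_fst.eventually e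
  have e2 : ∀ᶠ p : E × E in 𝓝 x ×ˢ 𝓝 x, u p.2 = v p.2 := tendsto_snd.eventually e
  filter_upwards [h, e1, e2] with p h1 h2 h3
  intro h4
  exact h1 (by rw [h2, h3, h4])

theorem LI.comp {u : E → F} {v : F → G} {x : E} (hv : LI v (u x)) (hu : LI u x)
    (hc : ContinuousAt u x) : LI (v ∘ u) x := by
  have h1 : Tendsto (fun p : E × E => (u p.1, u p.2)) (𝓝 x ×ˢ 𝓝 x) (𝓝 (u x) ×ˢ 𝓝 (u x)) :=
    (hc.tendsto.comp tendsto_fst).prodMk (hc.tendsto.comp tendsto_snd)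
  filter_upwards [h1.eventually hv, hu] with p h2 h3
  intro h4
  exact h3 (h2 h4)

theorem LI.ev {u : E → F} {x : E} (h : LI u x) : ∀ᶠ x' in 𝓝 x, LI u x' := by
  have h1 : ∀ᶠ p : E × E in 𝓝 (x, x), u p.1 = u p.2 → p.1 = p.2 := by
    rw [nhds_prod_eq]
    exact h
  have h2 : Tendsto (fun x' : E => (x', x')) (𝓝 x) (𝓝 (x, x)) := by
    rw [nhds_prod_eq]
    exact tendsto_id.prodMk tendsto_id
  filter_upwards [h2.eventually h1.eventually_nhds] with x' hx'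
  unfold LI
  rw [← nhds_prod_eq]
  exact hx'

theorem LI_of_inj {u : E → F} {x : E} {S : Set E} (hS : S ∈ 𝓝 x) (h : InjOn u S) : LI u x := by
  filter_upwards [prod_mem_prod hS hS] with p hp
  exact fun h1 => h hp.1 hp.2 h1

theorem LI.exists_inj {u : E → F} {x : E} (h : LI u x) : ∃ S ∈ 𝓝 x, InjOn u S := by
  unfold LI at h
  rw [Filter.eventually_iff, Filter.mem_prod_self_iff] at h
  obtain ⟨t, ht, h⟩ := h
  exact ⟨t, ht, fun a ha b hb hab => h (mk_mem_prod ha hb) hab⟩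

/-- Continuous convergence at `x`, with continuity and uniform local injectivity. -/
def CS (l : Filter κ) (u : κ → E → F) (u₀ : E → F) (x : E) : Prop :=
  (∀ᶠ p in l ×ˢ 𝓝 x, ContinuousAt (u p.1) p.2) ∧ SN u₀ x ∧
    Tendsto (fun p : κ × E => u p.1 p.2) (l ×ˢ 𝓝 x) (𝓝 (u₀ x)) ∧ ULI l u x ∧ LI u₀ x

theorem CS.val {l : Filter κ} {u : κ → E → F} {u₀ : E → F} {x : E} (h : CS l u u₀ x) :
    Tendsto (fun p : κ × E => u p.1 p.2) (l ×ˢ 𝓝 x) (𝓝 (u₀ x)) := h.2.2.1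

theorem CS.uli {l : Filter κ} {u : κ → E → F} {u₀ : E → F} {x : E} (h : CS l u u₀ x) :
    ULI l u x := h.2.2.2.1

theorem CS.li {l : Filter κ} {u : κ → E → F} {u₀ : E → F} {x : E} (h : CS l u u₀ x) :
    LI u₀ x := h.2.2.2.2

theorem CS.lift {l : Filter κ} {u : κ → E → F} {u₀ : E → F} {x : E} (h : CS l u u₀ x) :
    Tendsto (fun p : κ × E => (p.1, u p.1 p.2)) (l ×ˢ 𝓝 x) (l ×ˢ 𝓝 (u₀ x)) :=
  tendsto_fst.prodMk h.val

theorem CS.lift2 {l : Filter κ} {u : κ → E → F} {u₀ : E → F} {x : E} (h : CS l u u₀ x) :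
    Tendsto (fun p : κ × (E × E) => (p.1, (u p.1 p.2.1, u p.1 p.2.2))) (l ×ˢ (𝓝 x ×ˢ 𝓝 x))
      (l ×ˢ (𝓝 (u₀ x) ×ˢ 𝓝 (u₀ x))) := by
  refine tendsto_fst.prodMk (Tendsto.prodMk ?_ ?_)
  · exact h.val.comp (tendsto_fst.prodMk (tendsto_fst.comp tendsto_snd))
  · exact h.val.comp (tendsto_fst.prodMk (tendsto_snd.comp tendsto_snd))

theorem CS.mk' {l : Filter κ} {u : κ → E → F} {u₀ : E → F} {x : E}
    (h1 : ∀ᶠ p in l ×ˢ 𝓝 x, ContinuousAt (u p.1) p.2) (h2 : SN u₀ x)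
    (h3 : Tendsto (fun p : κ × E => u p.1 p.2) (l ×ˢ 𝓝 x) (𝓝 (u₀ x)))
    (h4 : ULI l u x) (h5 : LI u₀ x) : CS l u u₀ x :=
  ⟨h1, h2, h3, h4, h5⟩

theorem ULI.congr {l : Filter κ} {u v : κ → E → F} {x : E} (h : ULI l u x)
    (h1 : ∀ᶠ p in l ×ˢ 𝓝 x, u p.1 p.2 = v p.1 p.2) : ULI l v x := by
  have t1 : Tendsto (fun p : κ × (E × E) => (p.1, p.2.1)) (l ×ˢ (𝓝 x ×ˢ 𝓝 x)) (l ×ˢ 𝓝 x) :=
    tendsto_fst.prodMk (tendsto_fst.comp tendsto_snd)
  have t2 : Tendsto (fun p : κ × (E × E) => (p.1, p.2.2)) (l ×ˢ (𝓝 x ×ˢ 𝓝 x)) (l ×ˢ 𝓝 x) :=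
    tendsto_fst.prodMk (tendsto_snd.comp tendsto_snd)
  filter_upwards [h, t1.eventually h1, t2.eventually h1] with p a1 a2 a3
  intro a4
  exact a1 (by rw [a2, a3, a4])

theorem CS.congr {l : Filter κ} {u v : κ → E → F} {u₀ v₀ : E → F} {x : E} (h : CS l u u₀ x)
    (h1 : ∀ᶠ p in l ×ˢ 𝓝 x, u p.1 p.2 = v p.1 p.2) (h2 : ∀ᶠ x' in 𝓝 x, u₀ x' = v₀ x') :
    CS l v v₀ x := by
  have h1' := ev_ev h1
  have e1 : ∀ᶠ p in l ×ˢ 𝓝 x, u p.1 =ᶠ[𝓝 p.2] v p.1 := h1'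
  have e2 : u₀ =ᶠ[𝓝 x] v₀ := h2
  refine CS.mk' ?_ (h.2.1.congr h2) ?_ (h.uli.congr h1) (h.li.congr h2)
  · filter_upwards [h.1, e1] with p hp he
    exact hp.congr he
  · rw [← e2.self_of_nhds]
    refine h.val.congr' ?_
    exact h1

theorem ULI.ev {l : Filter κ} {u : κ → E → F} {x : E} (h : ULI l u x) :
    ∀ᶠ p in l ×ˢ 𝓝 x, LI (u p.1) p.2 := by
  have h1 : ∀ᶠ p : κ × (E × E) in l ×ˢ 𝓝 (x, x), u p.1 p.2.1 = u p.1 p.2.2 → p.2.1 = p.2.2 := by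
    rw [nhds_prod_eq]
    exact h
  have h2 := ev_ev h1
  have h3 : Tendsto (fun p : κ × E => (p.1, (p.2, p.2))) (l ×ˢ 𝓝 x) (l ×ˢ 𝓝 (x, x)) := by
    rw [nhds_prod_eq]
    exact tendsto_fst.prodMk (tendsto_snd.prodMk tendsto_snd)
  filter_upwards [h3.eventually h2] with p hp
  unfold LI
  rw [← nhds_prod_eq]
  exact hp

theorem CS.comp {l : Filter κ} {u : κ → E → F} {u₀ : E → F} {x : E} {v : κ → F → G}
    {v₀ : F → G} (hv : CS l v v₀ (u₀ x)) (hu : CS l u u₀ x) :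
    CS l (fun k => v k ∘ u k) (v₀ ∘ u₀) x := by
  have hL := hu.lift
  refine CS.mk' ?_ (hv.2.1.comp hu.2.1) (hv.val.comp hL) ?_ (hv.li.comp hu.li hu.2.1.self)
  · filter_upwards [hu.1, hL.eventually hv.1] with p h1 h2
    exact ContinuousAt.comp h2 h1
  · filter_upwards [hu.uli, hu.lift2.eventually hv.uli] with p h1 h2
    intro h3
    exact h1 (h2 h3)

theorem CS_const {l : Filter κ} {u₀ : E → F} {x : E} (h : SN u₀ x) (h' : LI u₀ x) :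
    CS l (fun _ => u₀) u₀ x := by
  refine CS.mk' (ev_snd h) h ?_ ?_ h'
  · exact h.self.tendsto.comp tendsto_snd
  · exact (tendsto_snd (f := l) (g := 𝓝 x ×ˢ 𝓝 x)).eventually h'

theorem LI_id {x : E} : LI (id : E → E) x := Filter.Eventually.of_forall fun _ h => h

theorem SN_id {x : E} : SN (id : E → E) x := Filter.Eventually.of_forall fun _ => continuousAt_id

theorem CS_id {l : Filter κ} {x : E} : CS l (fun _ => (id : E → E)) id x :=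
  CS_const SN_id LI_id

end Pool.Agent.Helper1.C0
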