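import Pool.Agent.Helper1.C0.Fam

/-!
The set of points of the coded manifold with the gluing topology.
-/

open Set Filter Topology
open scoped ContDiff Manifold

namespace Pool.Agent.Helper1.C0

variable {E : Type} [NormedAddCommGroup E] [NormedSpace ℝ E]

/-- The set of points of the coded manifold, as a type. -/
@[ext]
structure Code.Pts (c : Code E) : Type where
  val : Pt E
  mem : val ∈ M c

/-- The point with coordinate `x` in the chart `i`. -/
def Code.mk' (c : Code E) (i : ℕ) (x : c.V i i) : c.Pts := ⟨cls c i x, cls_mem_M x.2⟩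

/-- The gluing topology. -/
instance Code.topPts (c : Code E) : TopologicalSpace c.Pts :=
  ⨆ i, TopologicalSpace.coinduced (c.mk' i) inferInstance

theorem Code.isOpen_iff (c : Code E) {U : Set c.Pts} :
    IsOpen U ↔ ∀ i, IsOpen {x : E | ∃ h : x ∈ c.V i i, c.mk' i ⟨x, h⟩ ∈ U} := by
  have h1 : IsOpen U ↔ ∀ i, IsOpen (c.mk' i ⁻¹' U) := by
    show IsOpen[⨆ i, TopologicalSpace.coinduced (c.mk' i) inferInstance] U ↔ _
    rw [isOpen_iSup_iff]
    exact forall_congr' fun i => isOpen_coinduced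
  rw [h1]
  refine forall_congr' fun i => ?_
  rw [(c.isOpen i i).isOpenEmbedding_subtypeVal.isOpen_iff_image_isOpen]
  have h2 : Subtype.val '' (c.mk' i ⁻¹' U) = {x : E | ∃ h : x ∈ c.V i i, c.mk' i ⟨x, h⟩ ∈ U} := by
    ext x
    constructor
    · rintro ⟨⟨y, hy⟩, h, rfl⟩
      exact ⟨hy, h⟩
    · rintro ⟨h, hx⟩
      exact ⟨⟨x, h⟩, hx, rfl⟩
  rw [h2]

theorem Code.continuous_mk' (c : Code E) (i : ℕ) : Continuous (c.mk' i) := by
  rw [continuous_iff_coinduced_le]
  exact le_iSup (fun i => TopologicalSpace.coinduced (c.mk' i) inferInstance) i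

/-- The points of the chart `i` with coordinates in the open set `A`. -/
theorem Code.isOpen_chart (c : Code E) (i : ℕ) {A : Set E} (hA : IsOpen A) :
    IsOpen {z : c.Pts | ∃ y ∈ A, (i, y) ∈ z.1} := by
  rw [c.isOpen_iff]
  intro j
  have h1 : {x : E | ∃ h : x ∈ c.V j j, c.mk' j ⟨x, h⟩ ∈ {z : c.Pts | ∃ y ∈ A, (i, y) ∈ z.1}} =
      c.V j i ∩ c.φ j i ⁻¹' A := by
    ext x
    constructor
    · rintro ⟨h, y, hy, h2, h3⟩
      refine ⟨h2, ?_⟩
      have h3' : c.φ j i x = y := h3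
      show c.φ j i x ∈ A
      rw [h3']
      exact hy
    · rintro ⟨h2, h3⟩
      exact ⟨c.sub j i h2, c.φ j i x, h3, h2, rfl⟩
  rw [h1]
  exact (c.cont j i).isOpen_inter_preimage (c.isOpen j i) hA

theorem Code.exists_idx (c : Code E) (z : c.Pts) : ∃ i y, (i, y) ∈ z.1 := by
  obtain ⟨q, hq⟩ := exists_mem z.2
  exact ⟨q.1, q.2, hq⟩

end Pool.Agent.Helper1.C0
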