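import Pool.Agent.Helper1.C0.Trans

/-!
Local transitivity: two families of embeddings with the same limit are eventually related by
compactly supported diffeomorphisms of the target.
-/

open Set Filter Topology
open scoped ContDiff Manifold

namespace Pool.Agent.Helper1.C0

variable {κ : Type} {E : Type} [NormedAddCommGroup E] [NormedSpace ℝ E] [FiniteDimensional ℝ E]
variable {l : Filter κ}

local instance : CompleteSpace E := by
  have : ProperSpace E := FiniteDimensional.proper_real E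
  infer_instance

/-- A good ball for the embedding `e₀`: `v` is the local inverse of `e₀` in charts. -/
structure GB (d c₀ : Code E) (e₀ : Pt E → Pt E) (O W : Set (Pt E)) (b b' : ℕ × ℕ × ℕ) (j : ℕ)
    (v : E → E) : Prop where
  ball : (cb b : Set E) ⊆ c₀.V b.1 b.1
  idx : b'.1 = b.1
  inner : (cb b' : Set E) ⊆ ob b
  vs : ∀ y ∈ (cb b : Set E), SN v y
  vl : ∀ y ∈ (cb b : Set E), LI v y
  vV : ∀ y ∈ (cb b : Set E), v y ∈ d.V j j
  vO : ∀ y ∈ (cb b : Set E), cls d j (v y) ∈ O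
  ve : ∀ y ∈ (cb b : Set E), ∀ᶠ y' in 𝓝 y, e₀ (cls d j (v y')) = cls c₀ b.1 y'
  vu : ∀ y ∈ (cb b : Set E), ∀ᶠ x in 𝓝 (v y), v (rp e₀ d j b.1 x) = x
  hW : ∀ y ∈ (cb b : Set E), W ∈ nh c₀ (cls c₀ b.1 y)

theorem exists_GB {d c₀ : Code E} {e₀ : Pt E → Pt E} {O W : Set (Pt E)} {z : Pt E}
    (h : LD d c₀ e₀ z) (hO : O ∈ nh d z) (hW : W ∈ nh c₀ (e₀ z)) :
    ∃ b b' j v, GB d c₀ e₀ O W b b' j v ∧ ∃ y, y ∈ (ob b' : Set E) ∧ e₀ z = cls c₀ b.1 y := by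
  obtain ⟨q, hq⟩ := exists_mem h.1
  obtain ⟨q', hq'⟩ := exists_mem h.mem_tgt
  have h1 := h.at hq hq'
  have h3 := h.rp_eq hq hq'
  obtain ⟨v, v1, v2, v3, v4, v5⟩ := exists_local_inverse h1.sn h1.inv
  rw [h3] at v1 v2 v4 v5
  have hq2 := (mem_iff h.1 q).1 hq
  have hq2' := (mem_iff h.mem_tgt q').1 hq'
  have hv : Tendsto v (𝓝 q'.2) (𝓝 q.2) := by
    have := v1.self.tendsto
    rwa [v2] at this
  have hO' : ∀ᶠ x in 𝓝 q.2, cls d q.1 x ∈ O := by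
    have : ∀ᶠ z' in nh d z, z' ∈ O := hO
    rwa [hq2.2, ev_nh hq2.1] at this
  have hW' : ∀ᶠ y in 𝓝 q'.2, W ∈ nh c₀ (cls c₀ q'.1 y) := by
    have h4 : ∀ᶠ w in nh c₀ (e₀ z), W ∈ nh c₀ w := by
      have h2 : ∀ᶠ w in nh c₀ (e₀ z), w ∈ W := hW
      exact nh_ev h.mem_tgt h2
    rwa [hq2'.2, ev_nh hq2'.1] at h4
  have e1 : ∀ᶠ y in 𝓝 q'.2, e₀ (cls d q.1 (v y)) = cls c₀ q'.1 y := by
    filter_upwards [hv.eventually h1.ev0, v4] with y a b
    rw [a.1, b]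
  have hall : ∀ᶠ y in 𝓝 q'.2, y ∈ c₀.V q'.1 q'.1 ∧ SN v y ∧ v y ∈ d.V q.1 q.1 ∧
      cls d q.1 (v y) ∈ O ∧ (∀ᶠ y' in 𝓝 y, e₀ (cls d q.1 (v y')) = cls c₀ q'.1 y') ∧
      (∀ᶠ x in 𝓝 (v y), v (rp e₀ d q.1 q'.1 x) = x) ∧ W ∈ nh c₀ (cls c₀ q'.1 y) ∧ LI v y := by
    filter_upwards [(c₀.isOpen q'.1 q'.1).mem_nhds hq2'.1, v1.ev,
      hv.eventually ((d.isOpen q.1 q.1).mem_nhds hq2.1), hv.eventually hO',
      e1.eventually_nhds, hv.eventually v3.eventually_nhds, hW', v5.ev] with y a1 a2 a3 a4 a5 a6 a7 a8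
    exact ⟨a1, a2, a3, a4, a5, a6, a7, a8⟩
  obtain ⟨b, hb1, hb2, hb3⟩ := exists_rb q'.1 hall
  obtain ⟨b', hb1', hb2', hb3'⟩ := exists_rb q'.1 ((ob_open b).mem_nhds hb2)
  refine ⟨b, b', q.1, v, ⟨?_, hb1'.trans hb1.symm, hb3', ?_, ?_, ?_, ?_, ?_, ?_, ?_⟩, q'.2, hb2', ?_⟩
  · intro y hy
    rw [hb1]
    exact (hb3 hy).1
  · intro y hy
    exact (hb3 hy).2.1
  · intro y hy
    exact (hb3 hy).2.2.2.2.2.2.2
  · intro y hy
    exact (hb3 hy).2.2.1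
  · intro y hy
    exact (hb3 hy).2.2.2.1
  · intro y hy
    rw [hb1]
    exact (hb3 hy).2.2.2.2.1
  · intro y hy
    rw [hb1]
    exact (hb3 hy).2.2.2.2.2.1
  · intro y hy
    rw [hb1]
    exact (hb3 hy).2.2.2.2.2.2.1
  · rw [hb1]
    exact hq2'.2

variable {d : Code E} {c : κ → Code E} {c₀ : Code E} {e₀ : Pt E → Pt E} {O W : Set (Pt E)}
  {b b' : ℕ × ℕ × ℕ} {j : ℕ} {v : E → E}

theorem GB.self (hG : GB d c₀ e₀ O W b b' j v) {y : E} (hy : y ∈ (cb b : Set E)) :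
    e₀ (cls d j (v y)) = cls c₀ b.1 y := (hG.ve y hy).self_of_nhds

theorem GB.mk' (hc : CConv l c c₀) (hG : GB d c₀ e₀ O W b b' j v) {e : κ → Pt E → Pt E}
    (he : ∀ z ∈ O, MC l (fun _ => d) d c c₀ e e₀ z) {y : E} (hy : y ∈ (cb b : Set E)) :
    MK l (fun _ => d) d c c₀ e e₀ (j, v y) b.1 := by
  have h1 : (b.1, y) ∈ e₀ (cls d j (v y)) := by
    rw [hG.self hy]
    exact mem_cls_self (hG.ball hy)
  exact (he _ (hG.vO y hy)).at (CConv.const l d) hc (mem_cls_self (hG.vV y hy)) h1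

theorem GB.cs (hc : CConv l c c₀) (hG : GB d c₀ e₀ O W b b' j v) {e : κ → Pt E → Pt E}
    (he : ∀ z ∈ O, MC l (fun _ => d) d c c₀ e e₀ z) {y : E} (hy : y ∈ (cb b : Set E)) :
    CS l (fun k y => rp (e k) d j b.1 (v y)) id y := by
  have h1 : CS l (fun k => rp (e k) d j b.1) (rp e₀ d j b.1) (v y) := (hG.mk' hc he hy).cs
  have h2 := CS.comp h1 (CS_const (l := l) (hG.vs y hy) (hG.vl y hy))
  refine h2.congr (Filter.Eventually.of_forall fun _ => rfl) ?_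
  filter_upwards [hG.ve y hy, (c₀.isOpen b.1 b.1).mem_nhds (hG.ball hy)] with y' a1 a2
  exact C0.rp_eq a2 a1

/-- The limit of the coordinate representation at `v y`. -/
theorem GB.u0 (hG : GB d c₀ e₀ O W b b' j v) {y : E} (hy : y ∈ (cb b : Set E)) :
    rp e₀ d j b.1 (v y) = y := C0.rp_eq (hG.ball hy) (hG.self hy)

theorem stepB (hc : CConv l c c₀) (hG : GB d c₀ e₀ O W b b' j v) (hinj : InjOn e₀ O)
    {e e' : κ → Pt E → Pt E}
    (he : ∀ z ∈ O, MC l (fun _ => d) d c c₀ e e₀ z)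
    (he' : ∀ z ∈ O, MC l (fun _ => d) d c c₀ e' e₀ z) {Ds : List (ℕ × ℕ × ℕ)}
    (hDs : valid c₀ Ds)
    (hm : ∀ z ∈ O, e₀ z ∈ K c₀ Ds → ∀ᶠ p in l ×ˢ nh d z, e p.1 p.2 = e' p.1 p.2) :
    ∃ h : κ → Pt E → Pt E, (∀ᶠ k in l, Dc (c k) [b] (h k)) ∧
      (∀ z ∈ M c₀, MC l c c₀ c c₀ h id z) ∧
      (∀ z ∈ O, e₀ z ∈ K c₀ [b'] → ∀ᶠ p in l ×ˢ nh d z, h p.1 (e p.1 p.2) = e' p.1 p.2) ∧
      (∀ z ∈ O, e₀ z ∈ K c₀ Ds → ∀ᶠ p in l ×ˢ nh d z, h p.1 (e p.1 p.2) = e' p.1 p.2) := by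
  have : ProperSpace E := FiniteDimensional.proper_real E
  set f : κ → E → E := fun k y => rp (e k) d j b.1 (v y) with hf
  set f' : κ → E → E := fun k y => rp (e' k) d j b.1 (v y) with hf'
  have hfc : ∀ y ∈ (cb b : Set E), CS l f id y := fun y hy => hG.cs hc he hy
  have hfc' : ∀ y ∈ (cb b : Set E), CS l f' id y := fun y hy => hG.cs hc he' hy
  have hval : valid c₀ [b] := by
    intro b' hb'
    rw [List.mem_singleton.1 hb']
    exact hG.ball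
  obtain ⟨C₁, hC₁, hbC₁, hC₁b⟩ := exists_compact_between (cb_compact b') (ob_open (E := E) b)
    hG.inner
  obtain ⟨S₂, hS₂, hbS₂, hS₂C⟩ := exists_compact_between (cb_compact b') (isOpen_interior (s := C₁))
    hbC₁
  have hobint : (ob b : Set E) ⊆ interior (cb b) := interior_maximal (ob_sub_cb b) (ob_open b)
  have hC₁cb : C₁ ⊆ (cb b : Set E) := hC₁b.trans (ob_sub_cb b)
  have hS₂C₁ : S₂ ⊆ C₁ := hS₂C.trans interior_subset
  have hS₂cb : S₂ ⊆ (cb b : Set E) := hS₂C₁.trans hC₁cb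
  obtain ⟨F, G, hF, hGc, hFG, hFf, -⟩ := near_ext (l := l) (cb_compact b) hC₁ (hC₁b.trans hobint)
    isClosed_empty hfc (fun y hy => absurd hy (by simp))
  set g : κ → E → E := fun k y => f' k (G k y) with hg
  have hgc : ∀ y ∈ S₂, CS l g id y := by
    intro y hy
    exact CS.comp (v := f') (v₀ := id) (u := G) (u₀ := id) (hfc' y (hS₂cb hy)) (hGc y)
  set D : Set E := {y | y ∈ (cb b : Set E) ∧ cls c₀ b.1 y ∈ K c₀ Ds} with hDdef
  have hDc : IsClosed D := by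
    rw [← isOpen_compl_iff, isOpen_iff_eventually]
    intro y hy
    by_cases hyS : y ∈ (cb b : Set E)
    · have h1 : cls c₀ b.1 y ∉ K c₀ Ds := fun h => hy ⟨hyS, h⟩
      have h2 := K_closed hDs (cls_mem_M (hG.ball hyS)) h1
      rw [ev_nh (hG.ball hyS)] at h2
      filter_upwards [h2] with y' hy'
      rintro ⟨_, h3⟩
      exact hy' h3
    · filter_upwards [(cb_compact b).isClosed.isOpen_compl.mem_nhds hyS] with y' hy'
      rintro ⟨h3, _⟩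
      exact hy' h3
  have hvt : ∀ y ∈ (cb b : Set E), Tendsto (fun p : κ × E => (p.1, v p.2)) (l ×ˢ 𝓝 y)
      (l ×ˢ 𝓝 (v y)) := fun y hy => tendsto_fst.prodMk ((hG.vs y hy).self.tendsto.comp tendsto_snd)
  -- equality of the coordinate representations near `D`
  have hDm : ∀ y ∈ D, ∀ᶠ p in l ×ˢ 𝓝 y, f p.1 p.2 = f' p.1 p.2 := by
    rintro y ⟨hy, hyD⟩
    have h1 := hm (cls d j (v y)) (hG.vO y hy) (by rw [hG.self hy]; exact hyD)
    rw [evp_nh (hG.vV y hy)] at h1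
    filter_upwards [(hvt y hy).eventually h1] with p hp
    have hp' : e p.1 (cls d j (v p.2)) = e' p.1 (cls d j (v p.2)) := hp
    show coord b.1 (e p.1 (cls d j (v p.2))) = coord b.1 (e' p.1 (cls d j (v p.2)))
    rw [hp']
  have hgD : ∀ y ∈ D, y ∈ S₂ → ∀ᶠ p in l ×ˢ 𝓝 y, g p.1 p.2 = p.2 := by
    intro y hyD hy
    have h1 : ∀ᶠ p in l ×ˢ 𝓝 (id y), f p.1 p.2 = f' p.1 p.2 := hDm y hyD
    have h2 : ∀ᶠ p in l ×ˢ 𝓝 (id y), F p.1 p.2 = f p.1 p.2 := hFf y (hS₂C₁ hy)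
    filter_upwards [(hGc y).lift.eventually h1, (hGc y).lift.eventually h2] with p a1 a2
    have a1' : f p.1 (G p.1 p.2) = f' p.1 (G p.1 p.2) := a1
    have a2' : F p.1 (G p.1 p.2) = f p.1 (G p.1 p.2) := a2
    show f' p.1 (G p.1 p.2) = p.2
    rw [← a1', ← a2']
    exact (hFG p.1).right _
  obtain ⟨T, T', hT, hT', hTT, hTg, hTD⟩ := near_ext (l := l) hS₂ (cb_compact b') hbS₂ hDc hgc hgD
  have hTT' : ∀ k, DE (cb b : Set E) (T k) (T' k) := fun k => (hTT k).mono hS₂cb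
  -- the common coordinate facts near `v y`
  have main : ∀ y ∈ (cb b : Set E), ∀ᶠ p in l ×ˢ 𝓝 (v y),
      e p.1 (cls d j p.2) = cls (c p.1) b.1 (f p.1 (rp e₀ d j b.1 p.2)) ∧
      f p.1 (rp e₀ d j b.1 p.2) ∈ (c p.1).V b.1 b.1 ∧
      e' p.1 (cls d j p.2) = cls (c p.1) b.1 (f' p.1 (rp e₀ d j b.1 p.2)) ∧
      f' p.1 (rp e₀ d j b.1 p.2) ∈ (c p.1).V b.1 b.1 := by
    intro y hy
    filter_upwards [(hG.mk' hc he hy).ev, (hG.mk' hc he' hy).ev, ev_snd (hG.vu y hy)] with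
      p a1 a2 a3
    have e1 : f p.1 (rp e₀ d j b.1 p.2) = rp (e p.1) d j b.1 p.2 := by
      show rp (e p.1) d j b.1 (v (rp e₀ d j b.1 p.2)) = _
      rw [a3]
    have e2 : f' p.1 (rp e₀ d j b.1 p.2) = rp (e' p.1) d j b.1 p.2 := by
      show rp (e' p.1) d j b.1 (v (rp e₀ d j b.1 p.2)) = _
      rw [a3]
    rw [e1, e2]
    exact ⟨a1.1, a1.2, a2.1, a2.2⟩
  have hu0 : ∀ y ∈ (cb b : Set E), Tendsto (fun p : κ × E => (p.1, rp e₀ d j b.1 p.2))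
      (l ×ˢ 𝓝 (v y)) (l ×ˢ 𝓝 y) := by
    intro y hy
    have h1 := (hG.mk' hc he hy).cs.2.1.self.tendsto
    have h2 := hG.u0 hy
    rw [h2] at h1
    exact tendsto_fst.prodMk (h1.comp tendsto_snd)
  -- the key equality
  have keyC : ∀ y ∈ (cb b' : Set E), ∀ᶠ q in l ×ˢ 𝓝 y, T q.1 (f q.1 q.2) = f' q.1 q.2 := by
    intro y hy
    have hyC₁ : y ∈ C₁ := hS₂C₁ (interior_subset (hbS₂ hy))
    have h1 : ∀ᶠ q in l ×ˢ 𝓝 y, F q.1 q.2 = f q.1 q.2 := hFf y hyC₁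
    have h2 : ∀ᶠ p in l ×ˢ 𝓝 (id y), T p.1 p.2 = g p.1 p.2 := hTg y hy
    filter_upwards [h1, (hF y).lift.eventually h2] with q a1 a2
    have a2' : T q.1 (F q.1 q.2) = g q.1 (F q.1 q.2) := a2
    rw [← a1, a2']
    show f' q.1 (G q.1 (F q.1 q.2)) = f' q.1 q.2
    rw [(hFG q.1).left]
  refine ⟨fun k => trp (c k) b.1 (T k), ?_, ?_, ?_, ?_⟩
  · filter_upwards [valid_ev hc hval] with k h2
    exact trp_Dc (hTT' k) (h2 b (List.mem_singleton.2 rfl))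
  · intro z hz
    exact trp_MC hc (Filter.Eventually.of_forall hTT') hT hG.ball hz
  · rintro z hz ⟨b'', hb'', y, hy', hzy⟩
    rw [List.mem_singleton.1 hb''] at hy' hzy
    rw [hG.idx] at hzy
    have hy : y ∈ (cb b : Set E) := ob_sub_cb b (hG.inner hy')
    have hzv : z = cls d j (v y) := hinj hz (hG.vO y hy) (hzy.trans (hG.self hy).symm)
    rw [hzv, evp_nh (hG.vV y hy)]
    filter_upwards [main y hy, (hu0 y hy).eventually (keyC y hy')] with p a1 a2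
    show trp (c p.1) b.1 (T p.1) (e p.1 (cls d j p.2)) = e' p.1 (cls d j p.2)
    obtain ⟨b1, b2, b3, b4⟩ := a1
    rw [b1, trp_cls b2, b3]
    congr 1
  · intro z hz hzD
    by_cases hzK : e₀ z ∈ K c₀ [b]
    · obtain ⟨b'', hb'', y, hy, hzy⟩ := hzK
      rw [List.mem_singleton.1 hb''] at hy hzy
      have hzv : z = cls d j (v y) := hinj hz (hG.vO y hy) (hzy.trans (hG.self hy).symm)
      have hyD : y ∈ D := ⟨hy, by rw [← hzy]; exact hzD⟩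
      have hm' := hm z hz hzD
      rw [hzv, evp_nh (hG.vV y hy)] at hm' ⊢
      have h1 : ∀ᶠ p in l ×ˢ 𝓝 (id y), T p.1 p.2 = p.2 := hTD y hyD
      have h2 := (hfc y hy).lift.eventually h1
      filter_upwards [main y hy, hm', (hu0 y hy).eventually h2] with p a1 a2 a3
      show trp (c p.1) b.1 (T p.1) (e p.1 (cls d j p.2)) = e' p.1 (cls d j p.2)
      obtain ⟨b1, b2, b3, b4⟩ := a1
      have a3' : T p.1 (f p.1 (rp e₀ d j b.1 p.2)) = f p.1 (rp e₀ d j b.1 p.2) := a3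
      rw [← a2, b1, trp_cls b2, a3']
    · have hz' := he z hz
      obtain ⟨q, hq⟩ := exists_mem hz'.1
      obtain ⟨q', hq'⟩ := exists_mem hz'.mem_tgt
      have h1 := closed_fam hc hval hz'.mem_tgt hzK hq'
      have h2 := hz'.at (CConv.const l d) hc hq hq'
      have h3 := h2.cs.lift
      rw [hz'.rp_eq hq hq'] at h3
      have hq2 := (mem_iff hz'.1 q).1 hq
      have h4 := h3.eventually h1
      have hm' := hm z hz hzD
      rw [hq2.2, evp_nh hq2.1] at hm' ⊢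
      filter_upwards [h4, hm', h2.ev] with p a1 a2 a3
      show trp (c p.1) b.1 (T p.1) (e p.1 (cls d q.1 p.2)) = e' p.1 (cls d q.1 p.2)
      rw [← a2, a3.1]
      exact trp_off (hTT' p.1) (cls_mem_M a3.2) a1

theorem locTrans_list (hc : CConv l c c₀) (hinj : InjOn e₀ O)
    {e e' : κ → Pt E → Pt E}
    (he : ∀ z ∈ O, MC l (fun _ => d) d c c₀ e e₀ z)
    (he' : ∀ z ∈ O, MC l (fun _ => d) d c c₀ e' e₀ z)
    (L : List ((ℕ × ℕ × ℕ) × (ℕ × ℕ × ℕ) × ℕ × (E → E)))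
    (hL : ∀ β ∈ L, GB d c₀ e₀ O W β.1 β.2.1 β.2.2.1 β.2.2.2) :
    ∃ (T : List (ℕ × ℕ × ℕ)) (h : κ → Pt E → Pt E), valid c₀ T ∧ (∀ w ∈ K c₀ T, W ∈ nh c₀ w) ∧
      (∀ᶠ k in l, Dc (c k) T (h k)) ∧
      (∀ z ∈ O, MC l (fun _ => d) d c c₀ (fun k => h k ∘ e k) e₀ z) ∧
      ∀ z ∈ O, e₀ z ∈ K c₀ (L.map fun β => β.2.1) →
        ∀ᶠ p in l ×ˢ nh d z, h p.1 (e p.1 p.2) = e' p.1 p.2 := by
  induction L with
  | nil =>
    refine ⟨[], fun _ => id, by simp [valid], ?_, ?_, he, ?_⟩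
    · rintro w ⟨b, hb, _⟩
      simp at hb
    · exact Filter.Eventually.of_forall fun k => Dc.id'
    · rintro z hz ⟨β, hβ, _⟩
      simp at hβ
  | cons β L ih =>
    have hL' := fun β' hβ' => hL β' (List.mem_cons_of_mem β hβ')
    obtain ⟨T, h₁, hT, hTW, hD, hM, hm⟩ := ih hL'
    have hG := hL β List.mem_cons_self
    have hDs : valid c₀ (L.map fun β => β.2.1) := by
      intro b' hb'
      obtain ⟨β', hβ', rfl⟩ := List.mem_map.1 hb'
      have h1 := hL' β' hβ'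
      rw [h1.idx]
      exact (h1.inner.trans (ob_sub_cb _)).trans h1.ball
    obtain ⟨h₂, hD2, hM2, hm2, hp2⟩ := stepB hc hG hinj hM he' hDs hm
    have hval : valid c₀ [β.1] := by
      intro b' hb'
      rw [List.mem_singleton.1 hb']
      exact hG.ball
    refine ⟨T ++ [β.1], fun k => h₂ k ∘ h₁ k, valid_append hT hval, ?_, ?_, ?_, ?_⟩
    · intro w hw
      rw [K_append] at hw
      rcases hw with hw | hw
      · exact hTW w hw
      · obtain ⟨b', hb', y, hy, rfl⟩ := hw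
        rw [List.mem_singleton.1 hb'] at hy ⊢
        exact hG.hW y hy
    · filter_upwards [hD, hD2] with k a1 a2
      exact a2.comp a1
    · intro z hz
      have h1 := hM z hz
      have h2 := MC.comp (CConv.const l d) hc hc (hM2 (e₀ z) h1.mem_tgt) h1
      exact h2
    · rintro z hz ⟨b', hb', y, hy, hzy⟩
      rcases List.mem_cons.1 hb' with h | h
      · subst h
        exact hm2 z hz ⟨_, List.mem_singleton.2 rfl, y, hy, hzy⟩
      · exact hp2 z hz ⟨b', h, y, hy, hzy⟩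

/-- Local transitivity. -/
theorem locTrans {s : List (ℕ × ℕ × ℕ)} (hc : CConv l c c₀) (hs : valid d s)
    (hO : ∀ z ∈ K d s, O ∈ nh d z) (hinj : InjOn e₀ O) (hLD : ∀ z ∈ O, LD d c₀ e₀ z)
    {e e' : κ → Pt E → Pt E}
    (he : ∀ z ∈ O, MC l (fun _ => d) d c c₀ e e₀ z)
    (he' : ∀ z ∈ O, MC l (fun _ => d) d c c₀ e' e₀ z)
    (hW : ∀ z ∈ K d s, W ∈ nh c₀ (e₀ z)) :
    ∃ T, valid c₀ T ∧ (∀ w ∈ K c₀ T, W ∈ nh c₀ w) ∧
      ∀ᶠ k in l, ∃ h, Dc (c k) T h ∧ EqNear d s (h ∘ e k) (e' k) := by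
  have hKO : K d s ⊆ O := fun z hz => nh_self (K_sub_M hs hz) (P := fun z => z ∈ O) (hO z hz)
  obtain ⟨L, hL1, hL2⟩ := K_cover (d := d) (t := s)
    (R := fun (β : (ℕ × ℕ × ℕ) × (ℕ × ℕ × ℕ) × ℕ × (E → E)) z' =>
      ∃ y ∈ (ob β.2.1 : Set E), e₀ z' = cls c₀ β.1.1 y)
    (Q := fun β => GB d c₀ e₀ O W β.1 β.2.1 β.2.2.1 β.2.2.2) hs (by
      intro z hz
      have hzLD := hLD z (hKO hz)
      obtain ⟨b, b', j, v, hG, y, hy, hzy⟩ := exists_GB hzLD (hO z hz) (hW z hz)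
      refine ⟨(b, b', j, v), hG, ?_⟩
      have h1 : cls c₀ b.1 '' ob b' ∈ nh c₀ (e₀ z) := by
        rw [hzy, nh_cls (hG.ball (ob_sub_cb b (hG.inner (ob_sub_cb b' hy))))]
        exact Filter.image_mem_map ((ob_open b').mem_nhds hy)
      filter_upwards [hzLD.tendsto h1] with z' hz'
      obtain ⟨y', hy', h2⟩ := hz'
      exact ⟨y', hy', h2.symm⟩)
  obtain ⟨T, h, hT, hTW, hD, _, hm⟩ := locTrans_list hc hinj he he' L hL1
  refine ⟨T, hT, hTW, ?_⟩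
  have h1 := K_ev (l := l) (P := fun p : κ × Pt E => h p.1 (e p.1 p.2) = e' p.1 p.2) hs (by
    intro z hz
    obtain ⟨β, hβ, h2⟩ := hL2 z hz
    obtain ⟨y, hy, hzy⟩ := nh_self (K_sub_M hs hz) h2
    refine hm z (hKO hz) ⟨β.2.1, List.mem_map.2 ⟨β, hβ, rfl⟩, y, ob_sub_cb _ hy, ?_⟩
    rw [(hL1 β hβ).idx]
    exact hzy)
  filter_upwards [hD, h1] with k a1 a2
  exact ⟨h k, a1, a2⟩

end Pool.Agent.Helper1.C0
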