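import Pool.Agent.Helper1.C0.Code

/-!
The Borel structure on the space of codes.
-/

open Set Filter Topology
open scoped ContDiff Manifold MeasureTheory

namespace Pool.Agent.Helper1.C0

variable {E : Type} [NormedAddCommGroup E] [NormedSpace ℝ E]

/-- The generating sets of the Borel structure on the space of codes: the conditions that a compact
set lies in a gluing domain, and that the value of a gluing map at a point lies in a Borel set. -/
def genC (E : Type) [NormedAddCommGroup E] [NormedSpace ℝ E] : Set (Set (Code E)) :=
  {A | ∃ (i j : ℕ) (S : Set E), IsCompact S ∧ A = {c | S ⊆ c.V i j}} ∪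
  {A | ∃ (i j : ℕ) (x : E) (B : Set E), MeasurableSet[borel E] B ∧ A = {c | c.φ i j x ∈ B}}

/-- The Borel structure on the space of codes. -/
instance measC : MeasurableSpace (Code E) := MeasurableSpace.generateFrom (genC E)

theorem meas_compact (i j : ℕ) {S : Set E} (hS : IsCompact S) :
    MeasurableSet {c : Code E | S ⊆ c.V i j} :=
  MeasurableSpace.measurableSet_generateFrom (Or.inl ⟨i, j, S, hS, rfl⟩)

theorem meas_val (i j : ℕ) (x : E) {B : Set E} (hB : MeasurableSet[borel E] B) :
    MeasurableSet {c : Code E | c.φ i j x ∈ B} :=
  MeasurableSpace.measurableSet_generateFrom (Or.inr ⟨i, j, x, B, hB, rfl⟩)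

theorem meas_mem (i j : ℕ) (x : E) : MeasurableSet {c : Code E | x ∈ c.V i j} := by
  have h := meas_compact (E := E) i j (S := {x}) isCompact_singleton
  simpa using h

theorem meas_phi (i j : ℕ) (x : E) : Measurable[measC, borel E] (fun c : Code E => c.φ i j x) := by
  intro B hB
  exact meas_val i j x hB

end Pool.Agent.Helper1.C0
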