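import Pool.Agent.Helper1.C0.Diff
import Pool.Agent.Helper1.LE.Final

/-!
Perturbations of the identity of the model space.
-/

open Set Filter Topology
open scoped ContDiff

namespace Pool.Agent.Helper1.C0

variable {κ : Type} {E : Type} [NormedAddCommGroup E] [NormedSpace ℝ E] [FiniteDimensional ℝ E]
variable {l : Filter κ}

/-- Homeomorphism `T` of `E` with inverse `T'`, the identity off `S`. -/
structure DE (S : Set E) (T T' : E → E) : Prop where
  sm : Continuous T
  sm' : Continuous T'
  left : ∀ y, T' (T y) = y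
  right : ∀ y, T (T' y) = y
  off : ∀ y, y ∉ S → T y = y

omit [NormedSpace ℝ E] [FiniteDimensional ℝ E] in
theorem DE.off' {S : Set E} {T T' : E → E} (h : DE S T T') : ∀ y, y ∉ S → T' y = y := by
  intro y hy
  have h1 := h.left y
  rwa [h.off y hy] at h1

omit [NormedSpace ℝ E] [FiniteDimensional ℝ E] in
theorem DE.symm {S : Set E} {T T' : E → E} (h : DE S T T') : DE S T' T :=
  ⟨h.sm', h.sm, h.right, h.left, h.off'⟩

omit [NormedSpace ℝ E] [FiniteDimensional ℝ E] in
theorem DE.mono {S S' : Set E} {T T' : E → E} (h : DE S T T') (hS : S ⊆ S') : DE S' T T' :=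
  ⟨h.sm, h.sm', h.left, h.right, fun y hy => h.off y (fun h' => hy (hS h'))⟩

omit [NormedSpace ℝ E] [FiniteDimensional ℝ E] in
theorem DE.comp {S : Set E} {T T' R R' : E → E} (h : DE S T T') (hR : DE S R R') :
    DE S (T ∘ R) (R' ∘ T') := by
  refine ⟨h.sm.comp hR.sm, hR.sm'.comp h.sm', ?_, ?_, ?_⟩
  · intro y
    show R' (T' (T (R y))) = y
    rw [h.left, hR.left]
  · intro y
    show T (R (R' (T' y))) = y
    rw [hR.right, h.right]
  · intro y hy
    show T (R y) = y
    rw [hR.off y hy, h.off y hy]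

/-- The local extension theorem: a family `g` of locally injective maps near `S` converging to the
identity agrees near `C` with a family of homeomorphisms supported in `S` converging to the identity,
which are the identity near the points of `D` near which `g` is. -/
theorem near_ext {S C D : Set E} (hS : IsCompact S) (hC : IsCompact C) (hCS : C ⊆ interior S)
    (hD : IsClosed D) {g : κ → E → E} (hg : ∀ y ∈ S, CS l g id y)
    (hgD : ∀ y ∈ D, y ∈ S → ∀ᶠ p in l ×ˢ 𝓝 y, g p.1 p.2 = p.2) :
    ∃ T T' : κ → E → E, (∀ y, CS l T id y) ∧ (∀ y, CS l T' id y) ∧ (∀ k, DE S (T k) (T' k)) ∧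
      (∀ y ∈ C, ∀ᶠ p in l ×ˢ 𝓝 y, T p.1 p.2 = g p.1 p.2) ∧
      ∀ y ∈ D, ∀ᶠ p in l ×ˢ 𝓝 y, T p.1 p.2 = p.2 := by
  obtain ⟨T, h1, h2, h3, h4, h5⟩ := Pool.Agent.Helper1.LE.le_fam κ l E S C D hS hC hCS hD g
    (fun y hy => (hg y hy).1) (fun y hy => (hg y hy).val) (fun y hy => (hg y hy).uli) hgD
  have hli : ∀ y (R : κ → E ≃ₜ E), ULI l (fun k => (R k : E → E)) y := fun y R =>
    Filter.Eventually.of_forall fun p h => (R p.1).injective h
  refine ⟨fun k => T k, fun k => (T k).symm, ?_, ?_, ?_, h4, h5⟩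
  · intro y
    exact ⟨Filter.Eventually.of_forall fun p => (T p.1).continuous.continuousAt, SN_id, h1 y,
      hli y T, LI_id⟩
  · intro y
    exact ⟨Filter.Eventually.of_forall fun p => (T p.1).symm.continuous.continuousAt, SN_id, h2 y,
      hli y (fun k => (T k).symm), LI_id⟩
  · intro k
    exact ⟨(T k).continuous, (T k).symm.continuous, (T k).symm_apply_apply, (T k).apply_symm_apply,
      h3 k⟩

end Pool.Agent.Helper1.C0
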