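import Pool.Agent.Helper1.C0.Cpt

/-!
Pairs of an open set and a continuous map on it form a standard Borel space, part 1: the data.
-/

open Set Filter Topology
open scoped ContDiff MeasureTheory

namespace Pool.Agent.Helper1.C0.SB

open Pool.Agent.Helper1.C0

variable {E : Type} [NormedAddCommGroup E] [NormedSpace ℝ E]

/-- An open set with a continuous map on it, extended by zero. -/
structure PreMap (E : Type) [NormedAddCommGroup E] [NormedSpace ℝ E] where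
  V : Set E
  φ : E → E
  isOpen : IsOpen V
  cont : ContinuousOn φ V
  off : ∀ x, x ∉ V → φ x = 0

theorem PreMap.ext' {p q : PreMap E} (h1 : p.V = q.V) (h2 : ∀ x ∈ p.V, p.φ x = q.φ x) : p = q := by
  obtain ⟨V, φ, a, b, c⟩ := p
  obtain ⟨V', φ', a', b', c'⟩ := q
  obtain rfl : V = V' := h1
  have : φ = φ' := by
    funext x
    by_cases hx : x ∈ V
    · exact h2 x hx
    · rw [c x hx, c' x hx]
  subst this
  rfl

/-- The Borel structure on the space of such maps. -/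
instance measP : MeasurableSpace (PreMap E) := MeasurableSpace.generateFrom
  ({A | ∃ S : Set E, IsCompact S ∧ A = {p | S ⊆ p.V}} ∪
   {A | ∃ (x : E) (B : Set E), MeasurableSet[borel E] B ∧ A = {p | p.φ x ∈ B}})

theorem pm_compact {S : Set E} (hS : IsCompact S) : MeasurableSet {p : PreMap E | S ⊆ p.V} :=
  MeasurableSpace.measurableSet_generateFrom (Or.inl ⟨S, hS, rfl⟩)

theorem pm_val (x : E) {B : Set E} (hB : MeasurableSet[borel E] B) :
    MeasurableSet {p : PreMap E | p.φ x ∈ B} :=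
  MeasurableSpace.measurableSet_generateFrom (Or.inr ⟨x, B, hB, rfl⟩)

theorem pm_mem (x : E) : MeasurableSet {p : PreMap E | x ∈ p.V} := by
  have h := pm_compact (E := E) (S := {x}) isCompact_singleton
  simpa using h

theorem pm_phi (x : E) : Measurable[measP, borel E] (fun p : PreMap E => p.φ x) := by
  intro B hB
  exact pm_val x hB

variable [FiniteDimensional ℝ E]

local instance : ProperSpace E := FiniteDimensional.proper_real E

/-- The dense sequence. -/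
noncomputable abbrev D (E : Type) [NormedAddCommGroup E] [NormedSpace ℝ E]
    [FiniteDimensional ℝ E] : ℕ → E := TopologicalSpace.denseSeq E

/-- The trace of the neighborhood filter on the indices of the dense sequence. -/
noncomputable def tr (x : E) : Filter ℕ := comap (D E) (𝓝 x)

instance (x : E) : NeBot (tr x) := by
  unfold tr
  rw [comap_neBot_iff]
  intro t ht
  obtain ⟨y, ⟨n, rfl⟩, hy⟩ := (TopologicalSpace.denseRange_denseSeq E).inter_nhds_nonempty ht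
  exact ⟨n, hy⟩

theorem tendsto_D (x : E) : Tendsto (D E) (tr x) (𝓝 x) := tendsto_comap

theorem tr_ob {x : E} {b : ℕ × ℕ × ℕ} (hx : x ∈ (ob b : Set E)) : ∀ᶠ n in tr x, D E n ∈ (ob b : Set E) :=
  (tendsto_D x).eventually ((ob_open b).mem_nhds hx)

/-- The space of values at the points of the dense sequence. -/
abbrev TT (E : Type) [NormedAddCommGroup E] [NormedSpace ℝ E] : Type :=
  (ℕ × ℕ × ℕ → Prop) × (ℕ → E)

/-- The open set coded by a set of balls. -/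
def W (β : ℕ × ℕ × ℕ → Prop) : Set E := {x | ∃ b, β b ∧ x ∈ (ob b : Set E)}

theorem W_open (β : ℕ × ℕ × ℕ → Prop) : IsOpen (W β : Set E) := by
  rw [isOpen_iff_mem_nhds]
  rintro x ⟨b, hb, hx⟩
  filter_upwards [(ob_open b).mem_nhds hx] with y hy
  exact ⟨b, hb, hy⟩

theorem compact_sub_W {β : ℕ × ℕ × ℕ → Prop} {S : Set E} (hS : IsCompact S) :
    S ⊆ W β ↔ ∃ L : List (ℕ × ℕ × ℕ), (∀ b ∈ L, β b) ∧ S ⊆ {x | ∃ b ∈ L, x ∈ (ob b : Set E)} := by
  constructor
  · intro h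
    refine hS.induction_on (p := fun S => ∃ L : List (ℕ × ℕ × ℕ), (∀ b ∈ L, β b) ∧
      S ⊆ {x | ∃ b ∈ L, x ∈ (ob b : Set E)}) ?_ ?_ ?_ ?_
    · exact ⟨[], by simp, by simp⟩
    · rintro s t hst ⟨L, h1, h2⟩
      exact ⟨L, h1, hst.trans h2⟩
    · rintro s t ⟨L, h1, h2⟩ ⟨L', h1', h2'⟩
      refine ⟨L ++ L', ?_, ?_⟩
      · intro b hb
        rcases List.mem_append.1 hb with hb | hb
        · exact h1 b hb
        · exact h1' b hb
      · rintro x (hx | hx)
        · obtain ⟨b, hb, hxb⟩ := h2 hx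
          exact ⟨b, List.mem_append.2 (Or.inl hb), hxb⟩
        · obtain ⟨b, hb, hxb⟩ := h2' hx
          exact ⟨b, List.mem_append.2 (Or.inr hb), hxb⟩
    · intro x hx
      obtain ⟨b, hb, hxb⟩ := h hx
      refine ⟨ob b, mem_nhdsWithin_of_mem_nhds ((ob_open b).mem_nhds hxb), [b], ?_, ?_⟩
      · intro b' hb'
        rw [List.mem_singleton] at hb'
        rw [hb']
        exact hb
      · intro y hy
        exact ⟨b, List.mem_singleton.2 rfl, hy⟩
  · rintro ⟨L, h1, h2⟩ x hx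
    obtain ⟨b, hb, hxb⟩ := h2 hx
    exact ⟨b, h1 b hb, hxb⟩

/-- The conditions on the data. -/
structure Good (t : TT E) : Prop where
  coh : ∀ b, t.1 b ↔ ∃ L : List (ℕ × ℕ × ℕ), (∀ b' ∈ L, t.1 b') ∧
    (cb b : Set E) ⊆ {x | ∃ b' ∈ L, x ∈ (ob b' : Set E)}
  off : ∀ n, (∀ b, t.1 b → D E n ∉ (ob b : Set E)) → t.2 n = 0
  uc : ∀ b, t.1 b → ∀ m : ℕ, ∃ q : ℕ, ∀ n n', D E n ∈ (ob b : Set E) → D E n' ∈ (ob b : Set E) →
    ‖D E n - D E n'‖ < 1 / ((q : ℝ) + 1) → ‖t.2 n - t.2 n'‖ ≤ 1 / ((m : ℝ) + 1)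

/-- The extension of the data to all points. -/
noncomputable def hh (t : TT E) (x : E) : E := lim (map t.2 (tr x))

variable {t : TT E}

theorem hh_lim (ht : Good t) {x : E} (hx : x ∈ (W t.1 : Set E)) :
    Tendsto t.2 (tr x) (𝓝 (hh t x)) := by
  obtain ⟨b, hb, hxb⟩ := hx
  have hc : Cauchy (map t.2 (tr x)) := by
    rw [Metric.cauchy_iff]
    refine ⟨inferInstance, ?_⟩
    intro ε hε
    obtain ⟨m, hm⟩ := exists_nat_one_div_lt hε
    obtain ⟨q, hq⟩ := ht.uc b hb m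
    have hpos : (0 : ℝ) < 1 / ((q : ℝ) + 1) := by positivity
    have e1 := tr_ob hxb
    have e2 : ∀ᶠ n in tr x, dist (D E n) x < 1 / ((q : ℝ) + 1) / 2 :=
      (tendsto_D x).eventually (Metric.ball_mem_nhds x (half_pos hpos))
    refine ⟨t.2 '' {n | D E n ∈ (ob b : Set E) ∧ dist (D E n) x < 1 / ((q : ℝ) + 1) / 2},
      image_mem_map (e1.and e2), ?_⟩
    rintro _ ⟨n, ⟨h1, h2⟩, rfl⟩ _ ⟨n', ⟨h1', h2'⟩, rfl⟩
    rw [dist_eq_norm]
    refine lt_of_le_of_lt (hq n n' h1 h1' ?_) hm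
    rw [← dist_eq_norm]
    have := dist_triangle_right (D E n) (D E n') x
    linarith
  obtain ⟨y, hy⟩ := cauchy_iff_exists_le_nhds.1 hc
  exact le_nhds_lim ⟨y, hy⟩

theorem hh_D (ht : Good t) {n : ℕ} (hn : D E n ∈ (W t.1 : Set E)) :
    hh t (D E n) = t.2 n := by
  refine tendsto_nhds_unique (hh_lim ht hn) ?_
  obtain ⟨b, hb, hxb⟩ := hn
  rw [Metric.tendsto_nhds]
  intro ε hε
  obtain ⟨m, hm⟩ := exists_nat_one_div_lt hε
  obtain ⟨q, hq⟩ := ht.uc b hb m
  have hpos : (0 : ℝ) < 1 / ((q : ℝ) + 1) := by positivity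
  have e1 := tr_ob hxb
  have e2 : ∀ᶠ n' in tr (D E n), dist (D E n') (D E n) < 1 / ((q : ℝ) + 1) :=
    (tendsto_D (D E n)).eventually (Metric.ball_mem_nhds _ hpos)
  filter_upwards [e1, e2] with n' h1 h2
  rw [dist_eq_norm]
  refine lt_of_le_of_lt (hq n' n h1 hxb ?_) hm
  rw [← dist_eq_norm]
  exact h2

theorem hh_uc (ht : Good t) {b : ℕ × ℕ × ℕ} (hb : t.1 b) (m : ℕ) :
    ∃ q : ℕ, ∀ x ∈ (ob b : Set E), ∀ y ∈ (ob b : Set E), ‖x - y‖ < 1 / ((q : ℝ) + 1) →
      ‖hh t x - hh t y‖ ≤ 1 / ((m : ℝ) + 1) := by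
  obtain ⟨q, hq⟩ := ht.uc b hb m
  refine ⟨q, ?_⟩
  intro x hx y hy hxy
  have hx' : x ∈ (W t.1 : Set E) := ⟨b, hb, hx⟩
  have hy' : y ∈ (W t.1 : Set E) := ⟨b, hb, hy⟩
  have l1 : Tendsto (fun p : ℕ × ℕ => ‖t.2 p.1 - t.2 p.2‖) (tr x ×ˢ tr y)
      (𝓝 ‖hh t x - hh t y‖) :=
    (((hh_lim ht hx').comp tendsto_fst).sub ((hh_lim ht hy').comp tendsto_snd)).norm
  have l2 : Tendsto (fun p : ℕ × ℕ => ‖D E p.1 - D E p.2‖) (tr x ×ˢ tr y) (𝓝 ‖x - y‖) :=
    (((tendsto_D x).comp tendsto_fst).sub ((tendsto_D y).comp tendsto_snd)).norm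
  refine le_of_tendsto l1 ?_
  have e1 : ∀ᶠ p : ℕ × ℕ in tr x ×ˢ tr y, D E p.1 ∈ (ob b : Set E) ∧ D E p.2 ∈ (ob b : Set E) :=
    prod_mem_prod (tr_ob hx) (tr_ob hy)
  filter_upwards [e1, l2.eventually (gt_mem_nhds hxy)] with p h1 h2
  exact hq p.1 p.2 h1.1 h1.2 h2

theorem hh_cont (ht : Good t) {y : E} (hy : y ∈ (W t.1 : Set E)) :
    ContinuousAt (hh t) y := by
  obtain ⟨b, hb, hyb⟩ := hy
  rw [Metric.continuousAt_iff']
  intro ε hε
  obtain ⟨m, hm⟩ := exists_nat_one_div_lt hε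
  obtain ⟨q, hq⟩ := hh_uc ht hb m
  have hpos : (0 : ℝ) < 1 / ((q : ℝ) + 1) := by positivity
  filter_upwards [(ob_open b).mem_nhds hyb, Metric.ball_mem_nhds y hpos] with x h1 h2
  rw [dist_eq_norm]
  refine lt_of_le_of_lt (hq x h1 y hyb ?_) hm
  rw [← dist_eq_norm]
  exact h2

open Classical in
/-- The map coded by good data. -/
noncomputable def ofT (t : TT E) (ht : Good t) : PreMap E where
  V := W t.1
  φ x := if x ∈ (W t.1 : Set E) then hh t x else 0
  isOpen := W_open _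
  cont := by
    have h1 : ContinuousOn (hh t) (W t.1 : Set E) := fun x hx =>
      (hh_cont ht hx).continuousWithinAt
    refine h1.congr ?_
    intro x hx
    exact if_pos hx
  off x hx := if_neg hx

end Pool.Agent.Helper1.C0.SB
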