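import Pool.Agent.Helper1.C0.SBPre

/-!
Pairs of an open set and a continuous map on it form a standard Borel space, part 2.
-/

open Set Filter Topology
open scoped ContDiff MeasureTheory

namespace Pool.Agent.Helper1.C0.SB

open Pool.Agent.Helper1.C0

variable {E : Type} [NormedAddCommGroup E] [NormedSpace ℝ E]

/-- The Borel structure of `E`. -/
noncomputable local instance measE : MeasurableSpace E := borel E

local instance borelE : BorelSpace E := ⟨rfl⟩

variable [FiniteDimensional ℝ E]

local instance : ProperSpace E := FiniteDimensional.proper_real E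

omit [FiniteDimensional ℝ E] in
theorem T_meas (n : ℕ) : Measurable (fun t : TT E => t.2 n) :=
  (measurable_pi_apply n).comp measurable_snd

omit [FiniteDimensional ℝ E] in
theorem T_beta (b : ℕ × ℕ × ℕ) : MeasurableSet {t : TT E | t.1 b} := by
  have h1 : Measurable (fun t : TT E => t.1 b) := (measurable_pi_apply b).comp measurable_fst
  exact measurableSet_setOfPred.2 h1

theorem imp_meas {X : Type} [MeasurableSpace X] {P : Prop} {A : Set X} (hA : MeasurableSet A) :
    MeasurableSet {x | P → x ∈ A} := by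
  by_cases hP : P
  · have : {x | P → x ∈ A} = A := by
      ext x
      simp [hP]
    rw [this]
    exact hA
  · have : {x : X | P → x ∈ A} = univ := by
      ext x
      simp [hP]
    rw [this]
    exact MeasurableSet.univ

theorem and_meas {X : Type} [MeasurableSpace X] {P : Prop} {A : Set X} (hA : MeasurableSet A) :
    MeasurableSet {x | x ∈ A ∧ P} := by
  by_cases hP : P
  · have : {x | x ∈ A ∧ P} = A := by
      ext x
      simp [hP]
    rw [this]
    exact hA
  · have : {x : X | x ∈ A ∧ P} = ∅ := by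
      ext x
      simp [hP]
    rw [this]
    exact MeasurableSet.empty

theorem list_meas {X : Type} [MeasurableSpace X] {I : Type} {A : I → Set X}
    (hA : ∀ i, MeasurableSet (A i)) (L : List I) : MeasurableSet {x | ∀ b ∈ L, x ∈ A b} := by
  induction L with
  | nil => simp
  | cons a L ih =>
    have : {x | ∀ b ∈ a :: L, x ∈ A b} = A a ∩ {x | ∀ b ∈ L, x ∈ A b} := by
      ext x
      simp
    rw [this]
    exact (hA a).inter ih

theorem good_meas : MeasurableSet {t : TT E | Good t} := by
  have h1 : {t : TT E | Good t} =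
      ((⋂ b, ({t : TT E | t.1 b}ᶜ ∪ ⋃ L : List (ℕ × ℕ × ℕ), {t : TT E |
        t ∈ {t : TT E | ∀ b' ∈ L, t ∈ {t : TT E | t.1 b'}} ∧
          (cb b : Set E) ⊆ {x | ∃ b' ∈ L, x ∈ (ob b' : Set E)}}) ∩
        ({t : TT E | t.1 b} ∪ (⋃ L : List (ℕ × ℕ × ℕ), {t : TT E |
        t ∈ {t : TT E | ∀ b' ∈ L, t ∈ {t : TT E | t.1 b'}} ∧
          (cb b : Set E) ⊆ {x | ∃ b' ∈ L, x ∈ (ob b' : Set E)}})ᶜ)) ∩
      (⋂ n, ((⋃ b, {t : TT E | t ∈ {t : TT E | t.1 b} ∧ D E n ∈ (ob b : Set E)}) ∪
        {t : TT E | t.2 n = 0}))) ∩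
      (⋂ b, ({t : TT E | t.1 b}ᶜ ∪ ⋂ m : ℕ, ⋃ q : ℕ, ⋂ n, ⋂ n',
        {t : TT E | (D E n ∈ (ob b : Set E) ∧ D E n' ∈ (ob b : Set E) ∧
          ‖D E n - D E n'‖ < 1 / ((q : ℝ) + 1)) →
          t ∈ {t : TT E | ‖t.2 n - t.2 n'‖ ≤ 1 / ((m : ℝ) + 1)}})) := by
    ext t
    simp only [mem_inter_iff, mem_iInter, mem_union, mem_compl_iff, mem_iUnion, mem_ofPred_eq]
    constructor
    · intro h
      refine ⟨⟨fun b => ?_, fun n => ?_⟩, fun b => ?_⟩
      · have h2 := h.coh b
        tauto
      · by_cases h3 : ∃ b, t.1 b ∧ D E n ∈ (ob b : Set E)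
        · exact Or.inl h3
        · push Not at h3
          exact Or.inr (h.off n h3)
      · by_cases hb : t.1 b
        · refine Or.inr fun m => ?_
          obtain ⟨q, hq⟩ := h.uc b hb m
          exact ⟨q, fun n n' hn => hq n n' hn.1 hn.2.1 hn.2.2⟩
        · exact Or.inl hb
    · rintro ⟨⟨h1, h2⟩, h3⟩
      refine ⟨fun b => ?_, fun n hn => ?_, fun b hb m => ?_⟩
      · obtain ⟨a1, a2⟩ := h1 b
        constructor
        · intro hb
          exact a1.resolve_left (not_not.2 hb)
        · intro hL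
          exact a2.resolve_right (not_not.2 hL)
      · rcases h2 n with ⟨b, hb, hnb⟩ | h
        · exact absurd hnb (hn b hb)
        · exact h
      · rcases h3 b with h | h
        · exact absurd hb h
        · obtain ⟨q, hq⟩ := h m
          exact ⟨q, fun n n' a1 a2 a3 => hq n n' ⟨a1, a2, a3⟩⟩
  rw [h1]
  have hL : ∀ b : ℕ × ℕ × ℕ, MeasurableSet (⋃ L : List (ℕ × ℕ × ℕ), {t : TT E |
        t ∈ {t : TT E | ∀ b' ∈ L, t ∈ {t : TT E | t.1 b'}} ∧
          (cb b : Set E) ⊆ {x | ∃ b' ∈ L, x ∈ (ob b' : Set E)}}) := fun b =>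
    MeasurableSet.iUnion fun L => and_meas (list_meas (A := fun b => {t : TT E | t.1 b}) T_beta L)
  refine ((MeasurableSet.iInter fun b => ((T_beta b).compl.union (hL b)).inter
    ((T_beta b).union (hL b).compl)).inter ?_).inter ?_
  · refine MeasurableSet.iInter fun n => MeasurableSet.union
      (MeasurableSet.iUnion fun b => and_meas (T_beta b)) ?_
    exact (T_meas n) (measurableSet_singleton 0)
  · refine MeasurableSet.iInter fun b => (T_beta b).compl.union ?_
    refine MeasurableSet.iInter fun m => MeasurableSet.iUnion fun q =>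
      MeasurableSet.iInter fun n => MeasurableSet.iInter fun n' => imp_meas ?_
    exact measurableSet_le ((T_meas n).sub (T_meas n')).norm measurable_const

instance (x : E) : (tr x).IsCountablyGenerated := by
  unfold tr
  infer_instance

/-- The good data form a standard Borel space. -/
instance : StandardBorelSpace {t : TT E // Good t} := (good_meas (E := E)).standardBorel

/-- The map from good data to maps. -/
noncomputable def G (t : {t : TT E // Good t}) : PreMap E := ofT t.1 t.2

theorem mem_W_meas (x : E) : MeasurableSet {t : {t : TT E // Good t} | x ∈ (W t.1.1 : Set E)} := by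
  have : {t : {t : TT E // Good t} | x ∈ (W t.1.1 : Set E)} =
      ⋃ b, {t | t ∈ Subtype.val ⁻¹' {t : TT E | t.1 b} ∧ x ∈ (ob b : Set E)} := by
    ext t
    simp only [mem_ofPred_eq, mem_iUnion, mem_preimage]
    rfl
  rw [this]
  exact MeasurableSet.iUnion fun b => and_meas (measurable_subtype_coe (T_beta b))

theorem G_phi_meas (x : E) :
    Measurable[_, borel E] (fun t : {t : TT E // Good t} => (G t).φ x) := by
  classical
  obtain ⟨u, hu⟩ := (tr x).exists_seq_tendsto
  let f : ℕ → {t : TT E // Good t} → E := fun m t =>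
    if x ∈ (W t.1.1 : Set E) then t.1.2 (u m) else 0
  have hf : ∀ m, Measurable (f m) := by
    intro m
    refine Measurable.ite (mem_W_meas x) ?_ measurable_const
    exact (T_meas (u m)).comp measurable_subtype_coe
  refine measurable_of_tendsto_metrizable hf ?_
  rw [tendsto_pi_nhds]
  intro t
  by_cases hx : x ∈ (W t.1.1 : Set E)
  · have h1 : (G t).φ x = hh t.1 x := if_pos hx
    have h2 : (fun m => f m t) = fun m => t.1.2 (u m) := by
      funext m
      exact if_pos hx
    rw [h1, h2]
    exact (hh_lim t.2 hx).comp hu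
  · have h1 : (G t).φ x = 0 := if_neg hx
    have h2 : (fun m => f m t) = fun m => (0 : E) := by
      funext m
      exact if_neg hx
    rw [h1, h2]
    exact tendsto_const_nhds

theorem G_meas : Measurable (G : {t : TT E // Good t} → PreMap E) := by
  refine measurable_generateFrom ?_
  rintro A (⟨S, hS, rfl⟩ | ⟨x, B, hB, rfl⟩)
  · have : G ⁻¹' {p : PreMap E | S ⊆ p.V} = ⋃ L : List (ℕ × ℕ × ℕ),
        {t | t ∈ Subtype.val ⁻¹' {t : TT E | ∀ b ∈ L, t ∈ {t : TT E | t.1 b}} ∧
          S ⊆ {x | ∃ b ∈ L, x ∈ (ob b : Set E)}} := by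
      ext t
      have := compact_sub_W (β := t.1.1) hS
      simp only [mem_preimage, mem_ofPred_eq, mem_iUnion]
      exact this
    rw [this]
    exact MeasurableSet.iUnion fun L => and_meas (measurable_subtype_coe
      (list_meas (A := fun b => {t : TT E | t.1 b}) T_beta L))
  · exact G_phi_meas x hB

theorem G_inj : Function.Injective (G : {t : TT E // Good t} → PreMap E) := by
  rintro ⟨t, ht⟩ ⟨t', ht'⟩ h
  have hV : (W t.1 : Set E) = W t'.1 := congrArg PreMap.V h
  have hφ : ∀ x ∈ (W t.1 : Set E), hh t x = hh t' x := by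
    intro x hx
    have h1 : (G ⟨t, ht⟩).φ x = (G ⟨t', ht'⟩).φ x := by rw [h]
    have h2 : (G ⟨t, ht⟩).φ x = hh t x := if_pos hx
    have h3 : (G ⟨t', ht'⟩).φ x = hh t' x := by
      rw [hV] at hx
      exact if_pos hx
    rw [← h2, ← h3, h1]
  apply Subtype.ext
  show t = t'
  refine Prod.ext ?_ ?_
  · funext b
    have h1 := ht.coh b
    have h2 := ht'.coh b
    rw [← compact_sub_W (cb_compact b)] at h1 h2
    rw [hV] at h1
    exact propext (h1.trans h2.symm)
  · funext n
    by_cases hn : D E n ∈ (W t.1 : Set E)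
    · rw [← hh_D ht hn, ← hh_D ht' (by rw [← hV]; exact hn)]
      exact hφ _ hn
    · rw [ht.off n, ht'.off n]
      · intro b hb hnb
        apply hn
        rw [hV]
        exact ⟨b, hb, hnb⟩
      · intro b hb hnb
        exact hn ⟨b, hb, hnb⟩

open Classical in
/-- The data of a map. -/
noncomputable def toT (p : PreMap E) : TT E :=
  (fun b => (cb b : Set E) ⊆ p.V, fun n => if D E n ∈ p.V then p.φ (D E n) else 0)

theorem toT_W (p : PreMap E) : (W (toT p).1 : Set E) = p.V := by
  ext x
  constructor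
  · rintro ⟨b, hb, hx⟩
    exact hb (ob_sub_cb b hx)
  · intro hx
    obtain ⟨b, -, hxb, hb⟩ := exists_rb 0 (p.isOpen.mem_nhds hx)
    exact ⟨b, hb, hxb⟩

theorem toT_val (p : PreMap E) {n : ℕ} (hn : D E n ∈ p.V) :
    (toT p).2 n = p.φ (D E n) := if_pos hn

omit [FiniteDimensional ℝ E] in
theorem pm_continuousAt (p : PreMap E) {x : E} (hx : x ∈ p.V) : ContinuousAt p.φ x :=
  (p.cont).continuousAt (p.isOpen.mem_nhds hx)

theorem toT_good (p : PreMap E) : Good (toT p) := by
  refine ⟨?_, ?_, ?_⟩
  · intro b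
    rw [← compact_sub_W (cb_compact b), toT_W]
    rfl
  · intro n hn
    refine if_neg ?_
    intro h
    rw [← toT_W p] at h
    obtain ⟨b, hb, hnb⟩ := h
    exact hn b hb hnb
  · intro b hb m
    have hb' : (cb b : Set E) ⊆ p.V := hb
    have hc : ContinuousOn p.φ (cb b) := fun x hx =>
      (pm_continuousAt p (hb' hx)).continuousWithinAt
    have hu := (cb_compact b).uniformContinuousOn_of_continuous hc
    rw [Metric.uniformContinuousOn_iff] at hu
    have hpos : (0 : ℝ) < 1 / ((m : ℝ) + 1) := by positivity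
    obtain ⟨δ, hδ, h⟩ := hu _ hpos
    obtain ⟨q, hq⟩ := exists_nat_one_div_lt hδ
    refine ⟨q, ?_⟩
    intro n n' hn hn' hnn
    rw [toT_val p (hb' (ob_sub_cb b hn)), toT_val p (hb' (ob_sub_cb b hn')),
      ← dist_eq_norm]
    refine (h _ (ob_sub_cb b hn) _ (ob_sub_cb b hn') ?_).le
    rw [dist_eq_norm]
    exact hnn.trans hq

theorem G_surj : Function.Surjective (G : {t : TT E // Good t} → PreMap E) := by
  intro p
  refine ⟨⟨toT p, toT_good p⟩, ?_⟩
  refine PreMap.ext' (toT_W p) ?_
  intro x hx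
  have hx1 : x ∈ (W (toT p).1 : Set E) := hx
  have hx2 : x ∈ p.V := by rw [← toT_W p]; exact hx1
  have h1 : (G ⟨toT p, toT_good p⟩).φ x = hh (toT p) x := if_pos hx1
  rw [h1]
  have l1 : Tendsto (fun n => (toT p).2 n) (tr x) (𝓝 (hh (toT p) x)) :=
    hh_lim (toT_good p) hx1
  have l2 : Tendsto (fun n => p.φ (D E n)) (tr x) (𝓝 (p.φ x)) :=
    (pm_continuousAt p hx2).tendsto.comp (tendsto_D x)
  refine tendsto_nhds_unique l1 (l2.congr' ?_)
  filter_upwards [(tendsto_D x).eventually (p.isOpen.mem_nhds hx2)] with n hn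
  rw [toT_val p hn]

theorem pm_sep {p q : PreMap E} (h1 : ∀ b : ℕ × ℕ × ℕ, (cb b : Set E) ⊆ p.V ↔ (cb b : Set E) ⊆ q.V)
    (h2 : ∀ n, ∀ b : ℕ × ℕ × ℕ, p.φ (D E n) ∈ (ob b : Set E) ↔ q.φ (D E n) ∈ (ob b : Set E)) :
    p = q := by
  have hV : p.V = q.V := by
    rw [← toT_W p, ← toT_W q]
    have : (toT p).1 = (toT q).1 := by
      funext b
      exact propext (h1 b)
    rw [this]
  refine PreMap.ext' hV ?_
  intro x hx
  have hx2 : x ∈ q.V := by rw [← hV]; exact hx
  have l1 : Tendsto (fun n => p.φ (D E n)) (tr x) (𝓝 (p.φ x)) :=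
    (pm_continuousAt p hx).tendsto.comp (tendsto_D x)
  have l2 : Tendsto (fun n => q.φ (D E n)) (tr x) (𝓝 (q.φ x)) :=
    (pm_continuousAt q hx2).tendsto.comp (tendsto_D x)
  refine tendsto_nhds_unique l1 (l2.congr' (Eventually.of_forall ?_))
  intro n
  show q.φ (D E n) = p.φ (D E n)
  by_contra hne
  obtain ⟨b, -, hb1, hb2⟩ := exists_rb 0 (isOpen_compl_singleton.mem_nhds
    (show q.φ (D E n) ∈ ({p.φ (D E n)}ᶜ : Set E) from hne))
  exact hb2 (ob_sub_cb b ((h2 n b).2 hb1)) rfl

instance : MeasurableSpace.CountablySeparated (PreMap E) := by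
  refine ⟨⟨range (fun b : ℕ × ℕ × ℕ => {p : PreMap E | (cb b : Set E) ⊆ p.V}) ∪
    range (fun b : ℕ × (ℕ × ℕ × ℕ) => {p : PreMap E | p.φ (D E b.1) ∈ (ob b.2 : Set E)}),
    (countable_range _).union (countable_range _), ?_, ?_⟩⟩
  · rintro A (⟨b, rfl⟩ | ⟨b, rfl⟩)
    · exact pm_compact (cb_compact b)
    · exact pm_val _ (ob_open b.2).measurableSet
  · intro p _ q _ h
    refine pm_sep ?_ ?_
    · intro b
      exact h _ (Or.inl ⟨b, rfl⟩)
    · intro n b
      exact h _ (Or.inr ⟨(n, b), rfl⟩)

theorem sb_of_bij {X Y : Type} [MeasurableSpace X] [StandardBorelSpace X] [MeasurableSpace Y]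
    [MeasurableSpace.CountablySeparated Y] {f : X → Y} (hf : Measurable f)
    (hi : Function.Injective f) (hs : Function.Surjective f) : StandardBorelSpace Y := by
  have he : MeasurableEmbedding f := hf.measurableEmbedding hi
  let τ : TopologicalSpace X := (upgradeStandardBorel X).toTopologicalSpace
  have hbX : BorelSpace X := (upgradeStandardBorel X).toBorelSpace
  have hpX : PolishSpace X := (upgradeStandardBorel X).toPolishSpace
  let e : X ≃ Y := Equiv.ofBijective f ⟨hi, hs⟩
  let τY : TopologicalSpace Y := TopologicalSpace.induced e.symm τ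
  let eH : Y ≃ₜ X := e.symm.toHomeomorphOfIsInducing ⟨rfl⟩
  refine ⟨τY, ?_, eH.isClosedEmbedding.polishSpace⟩
  refine ⟨?_⟩
  have h1 : (inferInstance : MeasurableSpace X) = borel X := hbX.measurable_eq
  have h2 : borel Y = MeasurableSpace.comap e.symm (borel X) := by
    rw [borel_comap]
  rw [h2, ← h1]
  ext A
  constructor
  · intro hA
    refine ⟨f ⁻¹' A, hf hA, ?_⟩
    ext y
    have : f (e.symm y) = y := e.apply_symm_apply y
    simp [this]
  · rintro ⟨B, hB, rfl⟩
    have : e.symm ⁻¹' B = f '' B := by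
      ext y
      constructor
      · intro hy
        exact ⟨e.symm y, hy, e.apply_symm_apply y⟩
      · rintro ⟨x, hx, rfl⟩
        have : e.symm (f x) = x := e.symm_apply_apply x
        rw [mem_preimage, this]
        exact hx
    rw [this]
    exact he.measurableSet_image.2 hB

/-- The pairs of an open set and a continuous map on it form a standard Borel space. -/
instance sb_pre : StandardBorelSpace (PreMap E) := sb_of_bij G_meas G_inj G_surj

end Pool.Agent.Helper1.C0.SB
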